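import Pool.Agent.RK.Main

/-!
Search trees with a prescribed leaf order and depth profile.

Every strongly complete tree whose Kraft sum (the sum over all leaves of `2 ^ (-depth)`) is
smaller than one has the same leaf order and the same number of leaves at every depth as some
search tree. There is no condition on the leaf order.

All notions (strongly complete tree, leaf, lexicographic order of words, search tree, number of
leaves of depth `d`) are defined in `Pool.Agent.RU.Defs`.
-/

set_option autoImplicit false

namespace Pool.Agent.Results.MP_d404c6_co.KraftBelowOne

open Pool.Agent.RU

/-- For every strongly complete tree `T` whose Kraft sum is smaller than one there is a search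
tree `S` whose lexicographically ordered leaves are order-isomorphic to those of `T` and which
has as many leaves as `T` at every depth. -/
theorem result (T : Set (List Bool)) (hT : StronglyComplete T) (s : ℝ)
    (hs : HasSum (fun d => (leafCount T d : ℝ) / 2 ^ d) s) (h1 : s < 1) :
    ∃ S : Set (List Bool), IsSearchTree S ∧
      (∃ f : {u // IsLeaf T u} ≃ {u // IsLeaf S u},
        ∀ u v, LexLT u.1 v.1 ↔ LexLT (f u).1 (f v).1) ∧
      ∀ d, leafCount S d = leafCount T d :=
  Pool.Agent.RK.main_kraft (μ := 1 - s) hT (by rw [sub_sub_cancel]; exact hs) (by linarith)

end Pool.Agent.Results.MP_d404c6_co.KraftBelowOne
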