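import Pool.Agent.RU.Main

/-!
Search trees with a prescribed leaf order and depth profile.

Every strongly complete tree whose leaf order is scattered (contains no copy of the rationals)
has the same leaf order and the same number of leaves at every depth as some search tree. More
generally this holds whenever the Kraft sum of the leaves is one and every infinite interval of
leaves contains arbitrarily long finite intervals.

All notions (strongly complete tree, leaf, lexicographic order of words, search tree, number of
leaves of depth `d`) are defined in `Pool.Agent.RU.Defs`.
-/

set_option autoImplicit false

namespace Pool.Agent.Results.MP_d404c6_co.ScatteredOrders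

open Pool.Agent.RU

/-- For every strongly complete tree `T` whose leaf order is scattered, or whose Kraft sum is
one and in which every infinite interval of leaves contains arbitrarily long finite intervals,
there is a search tree `S` whose lexicographically ordered leaves are order-isomorphic to those
of `T` and which has as many leaves as `T` at every depth. -/
theorem result (T : Set (List Bool)) (hT : StronglyComplete T)
    (h : Scattered T ∨ (HasSum (fun d => (leafCount T d : ℝ) / 2 ^ d) 1 ∧ LongRuns T)) :
    ∃ S : Set (List Bool), IsSearchTree S ∧
      (∃ f : {u // IsLeaf T u} ≃ {u // IsLeaf S u},
        ∀ u v, LexLT u.1 v.1 ↔ LexLT (f u).1 (f v).1) ∧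
      ∀ d, leafCount S d = leafCount T d :=
  main hT h

end Pool.Agent.Results.MP_d404c6_co.ScatteredOrders
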